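import Mathlib

/-!
# Products of difference sets in the Boolean rings `F₂^n`

Even for the reduced rings `F₂^n` the conclusion asked for fails, for every density `α < 1/2`: take for `E` the
Hamming ball of all vectors with at least `n/2 + k` ones.  All elements of `(E - E) * (E - E)` have at
most `n - 2k` ones, whereas every subgroup of index at most `k` has an element with more than `n - k` ones.
-/

set_option autoImplicit false

namespace Pool.Agent.Results.MP_96ce97_co.BooleanRings

/-- the set `(E - E) * (E - E)` -/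
def diffProducts {R : Type} [CommRing R] (E : Set R) : Set R :=
  {z | ∃ x₁ ∈ E, ∃ x₂ ∈ E, ∃ x₃ ∈ E, ∃ x₄ ∈ E, z = (x₁ - x₂) * (x₃ - x₄)}

open Finset

/-- the support of a 0/1 vector -/
def supp {n : ℕ} (x : Fin n → ZMod 2) : Finset (Fin n) := univ.filter (fun i => x i = 1)

theorem zmod2 (a : ZMod 2) : a = 0 ∨ a = 1 := by
  revert a; decide

/-- vectors are the same as subsets -/
def suppEquiv (n : ℕ) : (Fin n → ZMod 2) ≃ Finset (Fin n) where
  toFun := supp
  invFun S := fun i => if i ∈ S then 1 else 0
  left_inv x := by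
    funext i
    rcases zmod2 (x i) with h | h <;> simp [supp, h]
  right_inv S := by
    ext i
    simp [supp]

/-- the Hamming ball of vectors with at least `M + k` ones -/
def ball (M k : ℕ) : Set (Fin (2 * M) → ZMod 2) := {x | M + k ≤ (supp x).card}

theorem supp_sub_card {M k : ℕ} {x y : Fin (2 * M) → ZMod 2} (hx : x ∈ ball M k) (hy : y ∈ ball M k) :
    (supp (x - y)).card + 2 * k ≤ 2 * M := by
  have h1 : supp (x - y) ⊆ univ \ (supp x ∩ supp y) := by
    intro i hi
    simp only [supp, mem_filter, mem_univ, true_and, mem_sdiff, mem_inter, Pi.sub_apply] at hi ⊢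
    rintro ⟨a, b⟩
    rw [a, b] at hi
    exact absurd hi (by decide)
  have h2 := card_le_card h1
  rw [card_sdiff_of_subset (subset_univ _)] at h2
  have h3 := card_union_add_card_inter (supp x) (supp y)
  have h4 : (supp x ∪ supp y).card ≤ 2 * M := by
    simpa using card_le_univ (supp x ∪ supp y)
  have h5 : (supp x ∩ supp y).card ≤ 2 * M := by
    simpa using card_le_univ (supp x ∩ supp y)
  simp only [ball, Set.mem_ofPred_eq] at hx hy
  simp only [card_univ, Fintype.card_fin] at h2
  omega

theorem supp_mul_subset {n : ℕ} (x y : Fin n → ZMod 2) : supp (x * y) ⊆ supp x := by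
  intro i hi
  simp only [supp, mem_filter, mem_univ, true_and, Pi.mul_apply] at hi ⊢
  rcases zmod2 (x i) with h | h
  · rw [h, zero_mul] at hi; exact absurd hi (by decide)
  · exact h

/-- a subgroup of index at most `k` contains a vector with more than `n - k` ones -/
theorem exists_large {n k : ℕ} (H : AddSubgroup (Fin n → ZMod 2)) (hk : H.index ≤ k) :
    ∃ h ∈ H, n < (supp h).card + k := by
  classical
  -- choose an element with the largest support
  obtain ⟨h, hH, hmax⟩ : ∃ h ∈ H, ∀ g ∈ H, (supp g).card ≤ (supp h).card := by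
    have := Set.exists_max_image (H : Set (Fin n → ZMod 2)) (fun g => (supp g).card) (Set.toFinite _)
      ⟨0, H.zero_mem⟩
    obtain ⟨h, h1, h2⟩ := this
    exact ⟨h, h1, h2⟩
  refine ⟨h, hH, ?_⟩
  by_contra hc
  push Not at hc
  -- the zero set
  set A : Finset (Fin n) := univ \ supp h with hA
  have hAc : k ≤ A.card := by
    rw [hA, card_sdiff_of_subset (subset_univ _)]
    simp only [card_univ, Fintype.card_fin]
    omega
  obtain ⟨B, hBA, hBk⟩ := exists_subset_card_eq hAc
  -- prefixes of `B`
  let e := B.orderEmbOfFin hBk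
  let p : Fin (k+1) → (Fin n → ZMod 2) := fun t i => if ∃ j : Fin k, j.val < t.val ∧ e j = i then 1 else 0
  have hfin : Finite ((Fin n → ZMod 2) ⧸ H) := inferInstance
  have hnotinj : ¬ Function.Injective (fun t => (QuotientAddGroup.mk (p t) : (Fin n → ZMod 2) ⧸ H)) := by
    intro hinj
    have h1 := Nat.card_le_card_of_injective _ hinj
    have h2 : Nat.card ((Fin n → ZMod 2) ⧸ H) = H.index := rfl
    rw [h2] at h1
    simp at h1
    omega
  rw [Function.not_injective_iff] at hnotinj
  obtain ⟨s, t, hst, hne⟩ := hnotinj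
  wlog hlt : s < t generalizing s t with Hw
  · exact Hw t s hst.symm hne.symm (lt_of_le_of_ne (not_lt.1 hlt) hne.symm)
  have hmem : - p s + p t ∈ H := QuotientAddGroup.eq.1 hst
  have hg := hmax (h + (- p s + p t)) (H.add_mem hH hmem)
  have hsub : insert (e ⟨s.val, by omega⟩) (supp h) ⊆ supp (h + (- p s + p t)) := by
    have hz : ∀ i, i ∈ supp h → p s i = 0 ∧ p t i = 0 := by
      intro i hi
      have : ∀ u : Fin (k+1), p u i = 0 := by
        intro u
        simp only [p]
        rw [if_neg]
        rintro ⟨j, _, rfl⟩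
        have h1 : e j ∈ B := Finset.orderEmbOfFin_mem B hBk j
        have h2 := hBA h1
        rw [hA, mem_sdiff] at h2
        exact h2.2 hi
      exact ⟨this s, this t⟩
    intro i hi
    rw [mem_insert] at hi
    simp only [supp, mem_filter, mem_univ, true_and, Pi.add_apply, Pi.neg_apply]
    rcases hi with rfl | hi
    · have h1 : e ⟨s.val, by omega⟩ ∈ B := Finset.orderEmbOfFin_mem B hBk _
      have h2 := hBA h1
      rw [hA, mem_sdiff] at h2
      have h3 : h (e ⟨s.val, by omega⟩) = 0 := by
        rcases zmod2 (h (e ⟨s.val, by omega⟩)) with h' | h'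
        · exact h'
        · exact absurd (by simp [supp, h'] : e ⟨s.val, by omega⟩ ∈ supp h) h2.2
      have h4 : p s (e ⟨s.val, by omega⟩) = 0 := by
        simp only [p]
        rw [if_neg]
        rintro ⟨j, hj, hje⟩
        have := e.injective hje
        rw [this] at hj
        simp at hj
      have h5 : p t (e ⟨s.val, by omega⟩) = 1 := by
        simp only [p]
        rw [if_pos]
        exact ⟨⟨s.val, by omega⟩, hlt, rfl⟩
      rw [h3, h4, h5]; decide
    · obtain ⟨h1, h2⟩ := hz i hi
      rw [h1, h2]
      simpa [supp] using hi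
  have h6 := card_le_card hsub
  rw [card_insert_of_notMem] at h6
  · omega
  · have h1 : e ⟨s.val, by omega⟩ ∈ B := Finset.orderEmbOfFin_mem B hBk _
    have h2 := hBA h1
    rw [hA, mem_sdiff] at h2
    exact h2.2

/-- size of the Hamming ball -/
theorem card_ball (M k : ℕ) : 4 ^ M ≤ 2 * Nat.card (ball M k) + 2 * k * M.centralBinom := by
  classical
  have h0 : Nat.card (ball M k) = ((univ : Finset (Finset (Fin (2*M)))).filter (fun S => M + k ≤ S.card)).card := by
    have e : ball M k ≃ {S : Finset (Fin (2*M)) // M + k ≤ S.card} :=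
      (suppEquiv (2*M)).subtypeEquiv (fun x => Iff.rfl)
    rw [Nat.card_congr e, Nat.card_eq_fintype_card, Fintype.card_subtype]
  set A := (univ : Finset (Finset (Fin (2*M)))).filter (fun S => M + k ≤ S.card) with hA
  set B := (univ : Finset (Finset (Fin (2*M)))).filter (fun S => S.card + k ≤ M) with hB
  set D := (univ : Finset (Finset (Fin (2*M)))).filter (fun S => M < S.card + k ∧ S.card < M + k) with hD
  have h1 : (univ : Finset (Finset (Fin (2*M)))) ⊆ A ∪ B ∪ D := by
    intro S _
    simp only [hA, hB, hD, mem_union, mem_filter, mem_univ, true_and]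
    omega
  have h2 : 4 ^ M ≤ A.card + B.card + D.card := by
    have h3 := card_le_card h1
    have h4 : (univ : Finset (Finset (Fin (2*M)))).card = 4 ^ M := by
      rw [card_univ, Fintype.card_finset, Fintype.card_fin, pow_mul]; norm_num
    rw [h4] at h3
    refine h3.trans ((card_union_le _ _).trans ?_)
    have := card_union_le A B
    omega
  have h5 : B.card ≤ A.card := by
    apply card_le_card_of_injOn (fun S => Sᶜ)
    · intro S hS
      simp only [hA, hB, coe_filter, mem_univ, true_and, Set.mem_ofPred_eq] at hS ⊢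
      rw [card_compl, Fintype.card_fin]
      omega
    · intro S _ T _ h
      exact compl_injective h
  have h6 : D.card ≤ 2 * k * M.centralBinom := by
    have h7 : D ⊆ (Finset.Ico (M + 1 - k) (M + k)).biUnion (fun j => powersetCard j univ) := by
      intro S hS
      simp only [hD, mem_filter, mem_univ, true_and] at hS
      rw [mem_biUnion]
      refine ⟨S.card, ?_, ?_⟩
      · rw [Finset.mem_Ico]; omega
      · rw [mem_powersetCard]; exact ⟨subset_univ _, rfl⟩
    refine (card_le_card h7).trans ?_
    refine (card_biUnion_le_card_mul _ _ M.centralBinom ?_).trans ?_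
    · intro j _
      rw [card_powersetCard, card_univ, Fintype.card_fin]
      exact Nat.choose_le_centralBinom _ _
    · rw [Nat.card_Ico]
      by_cases hk : k = 0
      · subst hk; simp
      · apply Nat.mul_le_mul_right
        omega
  rw [h0]
  omega

theorem centralBinom_sq (M : ℕ) : M.centralBinom ^ 2 * (2 * M + 1) ≤ 16 ^ M := by
  induction M with
  | zero => simp
  | succ M ih =>
    have h := Nat.succ_mul_centralBinom_succ M
    have h1 : ((M + 1) * (M+1).centralBinom) ^ 2 * (2 * (M+1) + 1) ≤ (M+1)^2 * 16 ^ (M+1) := by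
      rw [h]
      have e : (2 * (2 * M + 1) * M.centralBinom) ^ 2 * (2 * (M + 1) + 1)
        = (M.centralBinom ^ 2 * (2 * M + 1)) * (4 * ((2 * M + 1) * (2 * M + 3))) := by ring
      rw [e]
      have e2 : (M+1)^2 * 16 ^ (M+1) = 16 ^ M * (4 * (4 * (M+1)^2)) := by ring
      rw [e2]
      apply Nat.mul_le_mul ih
      apply Nat.mul_le_mul_left
      nlinarith
    have h2 : (M+1)^2 * ((M+1).centralBinom ^ 2 * (2 * (M+1) + 1)) ≤ (M+1)^2 * 16 ^ (M+1) := by
      calc _ = ((M + 1) * (M+1).centralBinom) ^ 2 * (2 * (M+1) + 1) := by ring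
        _ ≤ _ := h1
    exact Nat.le_of_mul_le_mul_left h2 (by positivity)

/-- For every density `α < 1/2` and all `N`, `k` there is a Boolean ring `F₂^n` with at least `N` elements and a
set `E` of density at least `α` such that `(E - E) * (E - E)` contains no additive subgroup of index at most `k`
(in particular no subring of index at most `k`). -/
theorem result (α : ℝ) (hα : α < 1 / 2) (N k : ℕ) :
    ∃ n : ℕ, N ≤ Nat.card (Fin n → ZMod 2) ∧ ∃ E : Set (Fin n → ZMod 2),
      α * (Nat.card (Fin n → ZMod 2) : ℝ) ≤ (Nat.card E : ℝ) ∧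
      ∀ H : AddSubgroup (Fin n → ZMod 2), (H : Set (Fin n → ZMod 2)) ⊆ diffProducts E → k < H.index := by
  set ε : ℝ := 1 / 2 - α with hε
  have hεp : 0 < ε := by linarith
  obtain ⟨M₀, hM₀⟩ := exists_nat_gt (((k : ℝ) / ε) ^ 2)
  set M := M₀ + N with hM
  have hcard : Nat.card (Fin (2*M) → ZMod 2) = 4 ^ M := by
    rw [Nat.card_eq_fintype_card]
    simp [pow_mul]
  refine ⟨2 * M, ?_, ball M k, ?_, ?_⟩
  · rw [hcard]
    have : M < 4 ^ M := Nat.lt_pow_self (by norm_num)
    omega
  · rw [hcard]
    have h1 := card_ball M k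
    have h2 := centralBinom_sq M
    have h1' : (4:ℝ) ^ M ≤ 2 * (Nat.card (ball M k) : ℝ) + 2 * k * (M.centralBinom : ℝ) := by exact_mod_cast h1
    have h2' : (M.centralBinom : ℝ) ^ 2 * (2 * M + 1) ≤ (4 ^ M) ^ 2 := by
      have : ((4:ℝ) ^ M) ^ 2 = 16 ^ M := by
        rw [← pow_mul, mul_comm, pow_mul]; norm_num
      rw [this]
      exact_mod_cast h2
    -- k * C(2M,M) ≤ ε 4^M
    have h3 : (k : ℝ) * (M.centralBinom : ℝ) ≤ ε * 4 ^ M := by
      have hMge : ((k : ℝ) / ε) ^ 2 ≤ 2 * M + 1 := by
        have : (M₀ : ℝ) ≤ M := by exact_mod_cast (by omega : M₀ ≤ M)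
        have h0 : (0:ℝ) ≤ M := Nat.cast_nonneg M
        linarith
      have h4 : ((k : ℝ) / ε) ^ 2 * (M.centralBinom : ℝ)^2 ≤ (4 ^ M) ^ 2 := by
        refine le_trans ?_ h2'
        rw [mul_comm]
        exact mul_le_mul_of_nonneg_left hMge (by positivity)
      rw [← mul_pow] at h4
      have h5 : (k : ℝ) / ε * (M.centralBinom : ℝ) ≤ 4 ^ M :=
        le_of_sq_le_sq h4 (by positivity)
      have h6 : (k : ℝ) * (M.centralBinom : ℝ) = ε * ((k : ℝ) / ε * (M.centralBinom : ℝ)) := by
        field_simp
      rw [h6]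
      exact mul_le_mul_of_nonneg_left h5 hεp.le
    push_cast
    have : α = 1/2 - ε := by rw [hε]; ring
    rw [this]
    linarith
  · intro H hH
    by_contra hc
    push Not at hc
    obtain ⟨h, hhH, hh⟩ := exists_large H hc
    obtain ⟨x₁, h₁, x₂, h₂, x₃, h₃, x₄, h₄, he⟩ := hH hhH
    have h5 := card_le_card (supp_mul_subset (x₁ - x₂) (x₃ - x₄))
    rw [← he] at h5
    have h6 := supp_sub_card h₁ h₂
    omega

end Pool.Agent.Results.MP_96ce97_co.BooleanRings
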