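import Mathlib

/-!
# Products of difference sets in finite commutative rings: the exact threshold

`HasSubringProperty α` is the property of the question for the density `α`.  We show that it
holds exactly when `1/2 < α`; in particular it fails for `α = 1/2`, so the answer to the question is negative.
-/

set_option autoImplicit false

namespace Pool.Agent.Results.MP_96ce97_co.ThresholdHalf

/-- the set `(E - E) * (E - E)` -/
def diffProducts {R : Type} [CommRing R] (E : Set R) : Set R :=
  {z | ∃ x₁ ∈ E, ∃ x₂ ∈ E, ∃ x₃ ∈ E, ∃ x₄ ∈ E, z = (x₁ - x₂) * (x₃ - x₄)}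

/-- The property in the question, for one density `α`: there are `N` and `k` such that for every finite
commutative ring `R` with identity, `|R| ≥ N`, and every `E ⊆ R` with `|E| ≥ α |R|`, the set
`(E - E) * (E - E)` contains a subring `R₀` (not necessarily containing `1`) of additive index at most `k`. -/
def HasSubringProperty (α : ℝ) : Prop :=
  ∃ N k : ℕ, ∀ (R : Type) [CommRing R] [Finite R], N ≤ Nat.card R →
    ∀ E : Set R, α * (Nat.card R : ℝ) ≤ (Nat.card E : ℝ) →
      ∃ R₀ : NonUnitalSubring R, (R₀ : Set R) ⊆ diffProducts E ∧ R₀.toAddSubgroup.index ≤ k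

theorem holds_of_gt (α : ℝ) (hα : 1 / 2 < α) : HasSubringProperty α := by
  refine ⟨0, 1, ?_⟩
  intro R _ _ _ E hE
  classical
  have : Fintype R := Fintype.ofFinite R
  have hcard : 0 < Nat.card R := Nat.card_pos
  have h2 : Nat.card R < 2 * Nat.card E := by
    have h3 : (0 : ℝ) < Nat.card R := by exact_mod_cast hcard
    have : (Nat.card R : ℝ) < 2 * (Nat.card E : ℝ) := by nlinarith
    exact_mod_cast this
  have hdiff : ∀ r : R, ∃ x ∈ E, ∃ y ∈ E, r = x - y := by
    intro r
    by_contra hc
    push Not at hc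
    have hdisj : Disjoint E ((fun y => r + y) '' E) := by
      rw [Set.disjoint_left]
      rintro x hx ⟨y, hy, rfl⟩
      exact hc (r + y) hx y hy (by ring)
    have hi : Nat.card ((fun y => r + y) '' E : Set R) = Nat.card E :=
      Nat.card_image_of_injective (add_right_injective r) E
    have hu : Nat.card (E ∪ ((fun y => r + y) '' E) : Set R) = Nat.card E + Nat.card E := by
      rw [Nat.card_coe_set_eq, Set.ncard_union_eq hdisj (Set.toFinite _) (Set.toFinite _)]
      rw [← Nat.card_coe_set_eq, ← Nat.card_coe_set_eq, hi]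
    have hle : Nat.card (E ∪ ((fun y => r + y) '' E) : Set R) ≤ Nat.card R :=
      Nat.card_le_card_of_injective (fun x => (x : R)) Subtype.val_injective
    omega
  refine ⟨⊤, ?_, ?_⟩
  · intro z _
    obtain ⟨x, hx, y, hy, h⟩ := hdiff z
    obtain ⟨x', hx', y', hy', h'⟩ := hdiff 1
    exact ⟨x, hx, y, hy, x', hx', y', hy', by rw [← h, ← h', mul_one]⟩
  · have : (⊤ : NonUnitalSubring R).toAddSubgroup = ⊤ := rfl
    rw [this, AddSubgroup.index_top]

/-- the ring `F₂ ⊕ V` with `V² = 0`, `V = F₂^n` -/
abbrev Rn (n : ℕ) : Type := TrivSqZeroExt (ZMod 2) (Fin n → ZMod 2)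

instance (n : ℕ) : Finite (Rn n) := inferInstanceAs (Finite (ZMod 2 × (Fin n → ZMod 2)))

theorem card_Rn (n : ℕ) : Nat.card (Rn n) = 2 * 2 ^ n := by
  have : Nat.card (Rn n) = Nat.card (ZMod 2 × (Fin n → ZMod 2)) := rfl
  rw [this, Nat.card_prod, Nat.card_eq_fintype_card, Nat.card_eq_fintype_card]
  simp

/-- the ideal `V` -/
def Vn (n : ℕ) : Set (Rn n) := {x | x.fst = 0}

theorem card_Vn (n : ℕ) : Nat.card (Vn n) = 2 ^ n := by
  have e : Vn n ≃ (Fin n → ZMod 2) :=
    { toFun := fun x => x.1.snd
      invFun := fun v => ⟨TrivSqZeroExt.inr v, by simp [Vn]⟩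
      left_inv := by
        rintro ⟨x, hx⟩
        apply Subtype.ext
        apply TrivSqZeroExt.ext
        · simp only [TrivSqZeroExt.fst_inr]
          exact hx.symm
        · simp
      right_inv := fun v => by simp }
  rw [Nat.card_congr e, Nat.card_eq_fintype_card]
  simp

theorem diffProducts_Vn (n : ℕ) : diffProducts (Vn n) ⊆ {0} := by
  rintro z ⟨x₁, h₁, x₂, h₂, x₃, h₃, x₄, h₄, rfl⟩
  simp only [Vn, Set.mem_ofPred_eq] at h₁ h₂ h₃ h₄
  simp only [Set.mem_singleton_iff]
  apply TrivSqZeroExt.ext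
  · simp [h₁, h₂]
  · simp [h₁, h₂, h₃, h₄]

theorem fails_of_le (α : ℝ) (hα : α ≤ 1 / 2) : ¬ HasSubringProperty α := by
  rintro ⟨N, k, h⟩
  set n := N + k with hn
  have hlt : n < 2 ^ n := Nat.lt_two_pow_self
  obtain ⟨R₀, hR, hk⟩ := h (Rn n) (by rw [card_Rn]; omega) (Vn n) (by
    rw [card_Rn, card_Vn]
    push_cast
    have : (0:ℝ) < 2 ^ n := by positivity
    nlinarith)
  have hbot : R₀.toAddSubgroup = ⊥ := by
    rw [eq_bot_iff]
    intro x hx
    have := diffProducts_Vn n (hR hx)
    simpa using this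
  rw [hbot, AddSubgroup.index_bot, card_Rn] at hk
  omega

/-- The property in question holds exactly for the densities `α > 1/2`. -/
theorem result (α : ℝ) : HasSubringProperty α ↔ 1 / 2 < α := by
  constructor
  · intro h
    by_contra hc
    exact fails_of_le α (not_lt.1 hc) h
  · exact holds_of_gt α

end Pool.Agent.Results.MP_96ce97_co.ThresholdHalf
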